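import Mathlib
import Pool.Agent.Helper7.GW.WResult

/-!
# The original Birch and Swinnerton-Dyer asymptotic recurs in every window `[X, X^{1+δ}]`
-/

namespace Pool.Agent.Results.MP_ad1693_nt.EveryWindow

/-- `P(x) = ∏_{p < x, p ∤ Δ} N_p / p`. -/
noncomputable def P (W : WeierstrassCurve ℤ) (N : ℕ → ℕ) (x : ℝ) : ℝ :=
  ∏ p ∈ (Finset.range ⌈x⌉₊).filter (fun p : ℕ => Nat.Prime p ∧ ¬ (((p : ℕ) : ℤ) ∣ W.Δ)), ((N p : ℝ) / (p : ℝ))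

/-- `S(x) = (1/2) ∑_{√x ≤ p < x, p ∤ Δ} (a_p / p)²`, where `a_p = p + 1 - N_p`. -/
noncomputable def S (W : WeierstrassCurve ℤ) (N : ℕ → ℕ) (x : ℝ) : ℝ :=
  (1 / 2) * ∑ p ∈ (Finset.range ⌈x⌉₊).filter
    (fun p : ℕ => Nat.Prime p ∧ ¬ (((p : ℕ) : ℤ) ∣ W.Δ) ∧ x ≤ (p : ℝ) ^ 2), (((p : ℝ) + 1 - N p) / p) ^ 2

/-- `C = 2 e^{rγ} r! / |F^{(r)}(1)|`, where `r` is the order of `F` at `1`. -/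
noncomputable def C (F : ℂ → ℂ) : ℝ :=
  2 * Real.exp ((analyticOrderNatAt F 1 : ℝ) * Real.eulerMascheroniConstant) * (analyticOrderNatAt F 1).factorial /
    ‖iteratedDeriv (analyticOrderNatAt F 1) F 1‖

/-- For every `δ > 0` and all large `X` some `x` in `[X, X^{1+δ}]` has the property `Q`. -/
def InEveryWindow (Q : ℝ → Prop) : Prop :=
  ∀ δ : ℝ, 0 < δ → ∀ᶠ X : ℝ in Filter.atTop, ∃ x : ℝ, X ≤ x ∧ x ≤ X ^ (1 + δ) ∧ Q x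

theorem result :
  ∀ (W : WeierstrassCurve ℤ), W.Δ ≠ 0 →
  ∀ (N : ℕ → ℕ), (∀ p : ℕ, N p = 1 + ((Finset.range p ×ˢ Finset.range p).filter
      (fun q : ℕ × ℕ => (p : ℤ) ∣ ((q.2 : ℤ) ^ 2 + W.a₁ * (q.1 : ℤ) * (q.2 : ℤ) + W.a₃ * (q.2 : ℤ)
        - ((q.1 : ℤ) ^ 3 + W.a₂ * (q.1 : ℤ) ^ 2 + W.a₄ * (q.1 : ℤ) + W.a₆)))).card) →
  ∀ (F : ℂ → ℂ), Differentiable ℂ F →
  (∀ s : ℂ, 3 / 2 < s.re →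
    HasProd (fun p : Nat.Primes =>
      if (((p : ℕ) : ℤ) ∣ W.Δ) then (1 : ℂ)
      else (1 - (((p : ℕ) : ℂ) + 1 - ((N (p : ℕ) : ℕ) : ℂ)) * ((p : ℕ) : ℂ) ^ (-s)
              + ((p : ℕ) : ℂ) ^ (1 - 2 * s))⁻¹) (F s)) →
  (∃ K : ℝ, ∀ x, 0 ≤ S W N x ∧ S W N x ≤ K) ∧ 0 < C F ∧
  (∀ ε : ℝ, 0 < ε → InEveryWindow fun x =>
    (C F - ε) * Real.log x ^ (analyticOrderNatAt F 1) ≤ P W N x * Real.exp (S W N x)) ∧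
  (∀ ρ : ℂ, F ρ = 0 → 1 < ρ.re → ∀ ε : ℝ, 0 < ε → InEveryWindow fun x =>
    Real.exp (x ^ (ρ.re - 1 - ε)) ≤ P W N x) ∧
  ((∃ β : ℝ, 1 < β ∧ F β = 0 ∧ ∀ ρ : ℂ, F ρ = 0 → ρ.re ≤ β) ∨
    ((∀ ε : ℝ, 0 < ε → InEveryWindow fun x =>
      |P W N x * Real.exp (S W N x) / Real.log x ^ (analyticOrderNatAt F 1) - C F| ≤ ε) ∧
     (∀ ρ : ℂ, F ρ = 0 → 1 < ρ.re → ∀ ε : ℝ, 0 < ε → InEveryWindow fun x =>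
      P W N x ≤ Real.exp (-x ^ (ρ.re - 1 - ε))))) := by
  intro W hΔ N hN F hFd hF
  obtain ⟨h1, h2, h3, h4, h5⟩ := Pool.Agent.Helper7.GW.windows W N hΔ hN F hFd hF
  refine ⟨h1, h2, fun ε hε δ hδ => h3 δ hδ ε hε, fun ρ hρ hρ1 ε hε δ hδ => h4 ρ hρ hρ1 δ hδ ε hε, ?_⟩
  rcases h5 with h | ⟨h5, h6⟩
  · exact Or.inl h
  · exact Or.inr ⟨fun ε hε δ hδ => h5 δ hδ ε hε, fun ρ hρ hρ1 ε hε δ hδ => h6 ρ hρ hρ1 δ hδ ε hε⟩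

end Pool.Agent.Results.MP_ad1693_nt.EveryWindow
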