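import Mathlib
import Pool.Agent.Helper16.CR.V6

/-!
# The Birch and Swinnerton-Dyer asymptotic in mean square

`P x = ∏_{p < x, p ∤ Δ} N_p / p`, `T x = ∑_{√x ≤ p < x, p ∤ Δ} (a_p² - 2 p) / (2 p²)`,
`C = e^{r γ} r! / |F^(r)(1)|` and `h x = log (P x * e^{T x} / (C (log x)^r))`.
-/

namespace Pool.Agent.Results.MP_ad1693_nt.MeanSquare

theorem result :
  ∀ (W : WeierstrassCurve ℤ), W.Δ ≠ 0 →
  ∀ (N : ℕ → ℕ), (∀ p : ℕ, N p = 1 + ((Finset.range p ×ˢ Finset.range p).filter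
      (fun q : ℕ × ℕ => (p : ℤ) ∣ ((q.2 : ℤ) ^ 2 + W.a₁ * (q.1 : ℤ) * (q.2 : ℤ) + W.a₃ * (q.2 : ℤ)
        - ((q.1 : ℤ) ^ 3 + W.a₂ * (q.1 : ℤ) ^ 2 + W.a₄ * (q.1 : ℤ) + W.a₆)))).card) →
  ∀ (F : ℂ → ℂ), Differentiable ℂ F →
  (∀ s : ℂ, 3 / 2 < s.re →
    HasProd (fun p : Nat.Primes =>
      if (((p : ℕ) : ℤ) ∣ W.Δ) then (1 : ℂ)
      else (1 - (((p : ℕ) : ℂ) + 1 - ((N (p : ℕ) : ℕ) : ℂ)) * ((p : ℕ) : ℂ) ^ (-s)
              + ((p : ℕ) : ℂ) ^ (1 - 2 * s))⁻¹) (F s)) →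
  ∀ P : ℝ → ℝ, (∀ x : ℝ, P x = ∏ p ∈ (Finset.range ⌈x⌉₊).filter
          (fun p : ℕ => Nat.Prime p ∧ ¬ (((p : ℕ) : ℤ) ∣ W.Δ)), ((N p : ℝ) / (p : ℝ))) →
  ∀ T : ℝ → ℝ, (∀ x : ℝ, T x = ∑ p ∈ (Finset.range ⌈x⌉₊).filter
          (fun p : ℕ => Nat.Prime p ∧ ¬ (((p : ℕ) : ℤ) ∣ W.Δ) ∧ x ≤ (p : ℝ) ^ 2),
            (((p : ℝ) + 1 - N p) ^ 2 - 2 * p) / (2 * (p : ℝ) ^ 2)) →
  ∀ C : ℝ, C = Real.exp ((analyticOrderNatAt F 1 : ℕ) * Real.eulerMascheroniConstant) *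
        ((analyticOrderNatAt F 1).factorial : ℝ) / ‖iteratedDeriv (analyticOrderNatAt F 1) F 1‖ →
  ∀ h : ℝ → ℝ, (∀ x : ℝ, h x =
      Real.log (P x * Real.exp (T x) / (C * Real.log x ^ (analyticOrderNatAt F 1)))) →
  0 < C ∧
  -- RH implies the exact mean square of `h x * log x`, the explicit formula in mean square with the exact
  -- size of the tail, and the limiting distribution (only here the polynomial growth of `F` is used)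
  ((∃ (A : ℝ) (k : ℕ), ∀ s : ℂ, 1 / 2 ≤ s.re → ‖F s‖ ≤ A * (1 + ‖s‖) ^ k) →
    (∀ ρ : ℂ, 1 < ρ.re → F ρ ≠ 0) →
      Summable (fun t : ℝ => if t = 0 then 0 else
        (analyticOrderNatAt F (1 + t * Complex.I) : ℝ) ^ 2 / t ^ 2) ∧
      (∀ X : ℝ, MeasureTheory.IntegrableOn (fun x => (h x * Real.log x) ^ 2 / x) (Set.Ioc 2 X)) ∧
      Filter.Tendsto (fun X : ℝ => (1 / Real.log X) *
          ∫ x in Set.Ioc 2 X, (h x * Real.log x) ^ 2 / x) Filter.atTop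
        (nhds (∑' t : ℝ, if t = 0 then 0 else
          (analyticOrderNatAt F (1 + t * Complex.I) : ℝ) ^ 2 / t ^ 2)) ∧
      (∀ Z : Finset ℝ, (0 : ℝ) ∉ Z →
        (∀ X : ℝ, MeasureTheory.IntegrableOn (fun x : ℝ => ‖((h x * Real.log x : ℝ) : ℂ) -
          ∑ t ∈ Z, (analyticOrderNatAt F (1 + t * Complex.I) : ℂ) / (t * Complex.I) *
            (x : ℂ) ^ (t * Complex.I)‖ ^ 2 / x) (Set.Ioc 2 X)) ∧
        Filter.Tendsto (fun X : ℝ => (1 / Real.log X) *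
            ∫ x in Set.Ioc 2 X, ‖((h x * Real.log x : ℝ) : ℂ) -
              ∑ t ∈ Z, (analyticOrderNatAt F (1 + t * Complex.I) : ℂ) / (t * Complex.I) *
                (x : ℂ) ^ (t * Complex.I)‖ ^ 2 / x) Filter.atTop
          (nhds ((∑' t : ℝ, if t = 0 then 0 else
            (analyticOrderNatAt F (1 + t * Complex.I) : ℝ) ^ 2 / t ^ 2) -
              ∑ t ∈ Z, (analyticOrderNatAt F (1 + t * Complex.I) : ℝ) ^ 2 / t ^ 2))) ∧
      ∃ μ : MeasureTheory.Measure ℝ, MeasureTheory.IsProbabilityMeasure μ ∧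
        MeasureTheory.Integrable (fun y : ℝ => y ^ 2) μ ∧ ∫ y, y ∂μ = 0 ∧
        ∫ y, y ^ 2 ∂μ = (∑' t : ℝ, if t = 0 then 0 else
          (analyticOrderNatAt F (1 + t * Complex.I) : ℝ) ^ 2 / t ^ 2) ∧
        (∀ Φ : ℝ → ℝ, Continuous Φ → (∃ M : ℝ, ∀ y, |Φ y| ≤ M * (1 + y ^ 2)) →
          (∀ X : ℝ, MeasureTheory.IntegrableOn (fun x => Φ (h x * Real.log x) / x) (Set.Ioc 2 X)) ∧
          Filter.Tendsto (fun X : ℝ => (1 / Real.log X) *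
            ∫ x in Set.Ioc 2 X, Φ (h x * Real.log x) / x) Filter.atTop (nhds (∫ y, Φ y ∂μ))) ∧
        -- the law charges the half lines beyond `n / (2 R)`
        (∀ (R K : ℝ) (Z : Finset ℝ), 0 < R → (∀ t ∈ Z, t ≠ 0 ∧ |t| ≤ R) →
          2 * R * K < ∑ t ∈ Z, (analyticOrderNatAt F (1 + t * Complex.I) : ℝ) →
            0 < μ (Set.Ioi K) ∧ 0 < μ (Set.Iio (-K))) ∧
        -- and, with the functional equation of `F` (the factors at `p ∣ Δ` restored), every half line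
        ((∃ (b c : ℕ → ℝ) (A e : ℝ) (L : ℂ → ℂ), 0 < A ∧ (e = 1 ∨ e = -1) ∧ Differentiable ℂ L ∧
            (∀ s : ℂ, 0 < s.re → L s * ∏ p ∈ W.Δ.natAbs.primeFactors,
              (1 - (b p : ℂ) * (p : ℂ) ^ (-s) + (c p : ℂ) * (p : ℂ) ^ (1 - 2 * s)) =
                (A : ℂ) ^ s * Complex.Gamma s * F s) ∧
            ∀ s : ℂ, L (2 - s) = e * L s) →
          ∀ K : ℝ, 0 < μ (Set.Ioi K) ∧ 0 < μ (Set.Iio (-K)))) ∧
  -- a limit of the mean square gives a bound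
  ((∀ X : ℝ, MeasureTheory.IntegrableOn (fun x => (h x * Real.log x) ^ 2 / x) (Set.Ioc 2 X)) →
    (∃ S : ℝ, Filter.Tendsto (fun X : ℝ => (1 / Real.log X) *
      ∫ x in Set.Ioc 2 X, (h x * Real.log x) ^ 2 / x) Filter.atTop (nhds S)) →
      ∃ K : ℝ, ∀ X : ℝ, 2 ≤ X →
        MeasureTheory.IntegrableOn (fun x => (h x * Real.log x) ^ 2 / x) (Set.Ioc 2 X) ∧
        ∫ x in Set.Ioc 2 X, (h x * Real.log x) ^ 2 / x ≤ K * Real.log X) ∧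
  -- the bound implies the mean square form
  ((∃ K : ℝ, ∀ X : ℝ, 2 ≤ X →
        MeasureTheory.IntegrableOn (fun x => (h x * Real.log x) ^ 2 / x) (Set.Ioc 2 X) ∧
        ∫ x in Set.Ioc 2 X, (h x * Real.log x) ^ 2 / x ≤ K * Real.log X) →
      MeasureTheory.IntegrableOn (fun x => h x ^ 2 / x) (Set.Ioi (2 : ℝ))) ∧
  -- the mean square form implies the mean form on dyadic intervals
  (MeasureTheory.IntegrableOn (fun x => h x ^ 2 / x) (Set.Ioi (2 : ℝ)) →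
    Filter.Tendsto (fun X : ℝ => ∫ x in X..(2 * X), |h x| / x) Filter.atTop (nhds 0)) ∧
  -- which implies the weak one-sided mean bound
  (Filter.Tendsto (fun X : ℝ => ∫ x in X..(2 * X), |h x| / x) Filter.atTop (nhds 0) →
    ∀ ε : ℝ, 0 < ε → ∀ᶠ X : ℝ in Filter.atTop, ∫ x in X..(2 * X), max (h x) 0 / x ≤ X ^ ε) ∧
  -- which implies RH
  ((∀ ε : ℝ, 0 < ε → ∀ᶠ X : ℝ in Filter.atTop, ∫ x in X..(2 * X), max (h x) 0 / x ≤ X ^ ε) →
    ∀ ρ : ℂ, 1 < ρ.re → F ρ ≠ 0) ∧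
  -- without RH the mean square tends to infinity
  ∀ ρ : ℂ, F ρ = 0 → 1 < ρ.re →
    Filter.Tendsto (fun X : ℝ => (1 / Real.log X) *
      ∫ x in Set.Ioc 2 X, (h x * Real.log x) ^ 2 / x) Filter.atTop Filter.atTop := by
  intro W hΔ N hN F hFd hF P hP T hT C hC h hh
  have h1 : P = Pool.Agent.Helper13.Bsd.PE W N := funext hP
  have h2 : T = Pool.Agent.Helper16.OM.TTb N (Pool.Agent.Helper13.Bsd.badW W) := funext hT
  have h3 : C = Pool.Agent.Helper58.BSD.kon F / 2 := by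
    rw [hC]
    unfold Pool.Agent.Helper58.BSD.kon
    ring
  have h4 : h = Pool.Agent.Helper16.OM.hs W N F := by
    funext x
    rw [hh x, h1, h2, h3]
    rfl
  have h5 := Pool.Agent.Helper58.BSD.kon_pos W N hN hΔ F hFd hF
  rw [h4]
  obtain ⟨k1, k2, k3, k4, k5, k6, k7⟩ := Pool.Agent.Helper16.CR.ms6 W N hN hΔ F hFd hF
  exact ⟨by rw [h3]; exact half_pos h5, k1, k2, k3, k4, k5, k6, fun ρ hρ hρ1 => (k7 ρ hρ hρ1).1⟩

end Pool.Agent.Results.MP_ad1693_nt.MeanSquare
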