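import Mathlib
import Pool.Agent.Helper16.OM.FinFE

/-!
# Oscillation of the Birch and Swinnerton-Dyer product at the scale `1 / log x`

`P x = ∏_{p < x, p ∤ Δ} N_p / p`, `T x = ∑_{√x ≤ p < x, p ∤ Δ} (a_p² - 2 p) / (2 p²)`,
`C = e^{r γ} r! / |F^(r)(1)|` and `h x = log (P x * e^{T x} / (C (log x)^r))`.
-/

namespace Pool.Agent.Results.MP_ad1693_nt.SharpOscillation

theorem result :
  ∀ (W : WeierstrassCurve ℤ), W.Δ ≠ 0 →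
  ∀ (N : ℕ → ℕ), (∀ p : ℕ, N p = 1 + ((Finset.range p ×ˢ Finset.range p).filter
      (fun q : ℕ × ℕ => (p : ℤ) ∣ ((q.2 : ℤ) ^ 2 + W.a₁ * (q.1 : ℤ) * (q.2 : ℤ) + W.a₃ * (q.2 : ℤ)
        - ((q.1 : ℤ) ^ 3 + W.a₂ * (q.1 : ℤ) ^ 2 + W.a₄ * (q.1 : ℤ) + W.a₆)))).card) →
  ∀ (F : ℂ → ℂ), Differentiable ℂ F →
  (∀ s : ℂ, 3 / 2 < s.re →
    HasProd (fun p : Nat.Primes =>
      if (((p : ℕ) : ℤ) ∣ W.Δ) then (1 : ℂ)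
      else (1 - (((p : ℕ) : ℂ) + 1 - ((N (p : ℕ) : ℕ) : ℂ)) * ((p : ℕ) : ℂ) ^ (-s)
              + ((p : ℕ) : ℂ) ^ (1 - 2 * s))⁻¹) (F s)) →
  ∀ P : ℝ → ℝ, (∀ x : ℝ, P x = ∏ p ∈ (Finset.range ⌈x⌉₊).filter
          (fun p : ℕ => Nat.Prime p ∧ ¬ (((p : ℕ) : ℤ) ∣ W.Δ)), ((N p : ℝ) / (p : ℝ))) →
  ∀ T : ℝ → ℝ, (∀ x : ℝ, T x = ∑ p ∈ (Finset.range ⌈x⌉₊).filter
          (fun p : ℕ => Nat.Prime p ∧ ¬ (((p : ℕ) : ℤ) ∣ W.Δ) ∧ x ≤ (p : ℝ) ^ 2),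
            (((p : ℝ) + 1 - N p) ^ 2 - 2 * p) / (2 * (p : ℝ) ^ 2)) →
  ∀ C : ℝ, C = Real.exp ((analyticOrderNatAt F 1 : ℕ) * Real.eulerMascheroniConstant) *
        ((analyticOrderNatAt F 1).factorial : ℝ) / ‖iteratedDeriv (analyticOrderNatAt F 1) F 1‖ →
  ∀ h : ℝ → ℝ, (∀ x : ℝ, h x =
      Real.log (P x * Real.exp (T x) / (C * Real.log x ^ (analyticOrderNatAt F 1)))) →
  0 < C ∧
  -- with the functional equation of `F` (the factors at `p ∣ Δ` restored): `h x * log x` is unbounded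
  ((∃ (b c : ℕ → ℝ) (A e : ℝ) (L : ℂ → ℂ), 0 < A ∧ (e = 1 ∨ e = -1) ∧ Differentiable ℂ L ∧
      (∀ s : ℂ, 0 < s.re → L s * ∏ p ∈ W.Δ.natAbs.primeFactors,
        (1 - (b p : ℂ) * (p : ℂ) ^ (-s) + (c p : ℂ) * (p : ℂ) ^ (1 - 2 * s)) =
          (A : ℂ) ^ s * Complex.Gamma s * F s) ∧
      ∀ s : ℂ, L (2 - s) = e * L s) →
    ∀ K : ℝ, (∃ᶠ x : ℝ in Filter.atTop, K / Real.log x ≤ h x) ∧
      -- the lower side, unless there is a rightmost real zero `β > 1`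
      ((∀ β : ℝ, 1 < β → F (β : ℂ) = 0 → ∃ ρ : ℂ, β < ρ.re ∧ F ρ = 0) →
        ∃ᶠ x : ℝ in Filter.atTop, h x ≤ -(K / Real.log x))) ∧
  -- many zeros with `Re ρ ≥ 1`, `0 < |Im ρ| ≤ R`
  (∀ (R : ℝ) (Z : Finset ℂ), 0 < R → (∀ ρ ∈ Z, 1 ≤ ρ.re ∧ ρ.im ≠ 0 ∧ |ρ.im| ≤ R) →
    ∀ K : ℝ, 0 ≤ K → 2 * R * K < ∑ ρ ∈ Z, (analyticOrderNatAt F ρ : ℝ) →
      (∃ᶠ x : ℝ in Filter.atTop, K / Real.log x ≤ h x) ∧
      ((∀ β : ℝ, 1 < β → F (β : ℂ) = 0 → ∃ ρ : ℂ, β < ρ.re ∧ F ρ = 0) →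
        ∃ᶠ x : ℝ in Filter.atTop, h x ≤ -(K / Real.log x))) ∧
  -- one zero with `Re ρ > 1`
  (∀ ρ : ℂ, 1 < ρ.re → ∀ κ : ℝ, 0 ≤ κ → κ * ‖ρ - 1‖ < analyticOrderNatAt F ρ →
      (∃ᶠ x : ℝ in Filter.atTop, κ * (x ^ (ρ.re - 1) / Real.log x) ≤ h x) ∧
      ((∀ β : ℝ, 1 < β → F (β : ℂ) = 0 → ∃ ρ : ℂ, β < ρ.re ∧ F ρ = 0) →
        ∃ᶠ x : ℝ in Filter.atTop, h x ≤ -(κ * (x ^ (ρ.re - 1) / Real.log x)))) := by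
  intro W hΔ N hN F hFd hF P hP T hT C hC h hh
  have h1 : P = Pool.Agent.Helper13.Bsd.PE W N := funext hP
  have h2 : T = Pool.Agent.Helper16.OM.TTb N (Pool.Agent.Helper13.Bsd.badW W) := funext hT
  have h3 : C = Pool.Agent.Helper58.BSD.kon F / 2 := by
    rw [hC]
    unfold Pool.Agent.Helper58.BSD.kon
    ring
  have h4 : h = Pool.Agent.Helper16.OM.hs W N F := by
    funext x
    rw [hh x, h1, h2, h3]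
    rfl
  have h5 := Pool.Agent.Helper58.BSD.kon_pos W N hN hΔ F hFd hF
  rw [h4]
  exact ⟨by rw [h3]; exact half_pos h5, fun hFE K => Pool.Agent.Helper16.OM.fe_main W N hN hΔ F hFd hF hFE K,
    Pool.Agent.Helper16.OM.osc_main W N hN hΔ F hFd hF⟩

end Pool.Agent.Results.MP_ad1693_nt.SharpOscillation
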