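import Mathlib
import Pool.Agent.Helper58.BSD.BFinal

/-!
# The Birch and Swinnerton-Dyer asymptotic for `E` is one-sided slow variation of `P_E`

For every elliptic curve `E`: `P_E(x) ~ C (log x) ^ r` for some `C ≠ 0` if and only if (a) `limsup P_E(λ x) / P_E(x) ≤ 1` for
every `λ ∈ (1, 2]` and (b) `S(x) = (1/2) ∑_{√x ≤ p < x} (a_p / p)²` converges (known, Rankin-Selberg). Condition (a) alone is
equivalent to `P_E(x) e^{S(x)} / (log x) ^ r → 2 e^{r γ} r! / |F^{(r)}(1)|`.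
-/

namespace Pool.Agent.Results.MP_ad1693_nt.SlowVariation

theorem result :
  ∀ (W : WeierstrassCurve ℤ), W.Δ ≠ 0 →
  ∀ (N : ℕ → ℕ), (∀ p : ℕ, N p = 1 + ((Finset.range p ×ˢ Finset.range p).filter
      (fun q : ℕ × ℕ => (p : ℤ) ∣ ((q.2 : ℤ) ^ 2 + W.a₁ * (q.1 : ℤ) * (q.2 : ℤ) + W.a₃ * (q.2 : ℤ)
        - ((q.1 : ℤ) ^ 3 + W.a₂ * (q.1 : ℤ) ^ 2 + W.a₄ * (q.1 : ℤ) + W.a₆)))).card) →
  ∀ (F : ℂ → ℂ), Differentiable ℂ F →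
  (∀ s : ℂ, 3 / 2 < s.re →
    HasProd (fun p : Nat.Primes =>
      if (((p : ℕ) : ℤ) ∣ W.Δ) then (1 : ℂ)
      else (1 - (((p : ℕ) : ℂ) + 1 - ((N (p : ℕ) : ℕ) : ℂ)) * ((p : ℕ) : ℂ) ^ (-s)
              + ((p : ℕ) : ℂ) ^ (1 - 2 * s))⁻¹) (F s)) →
  ∀ P : ℝ → ℝ, (∀ x : ℝ, P x = ∏ p ∈ (Finset.range ⌈x⌉₊).filter
          (fun p : ℕ => Nat.Prime p ∧ ¬ (((p : ℕ) : ℤ) ∣ W.Δ)), ((N p : ℝ) / (p : ℝ))) →
  ∀ S : ℝ → ℝ, (∀ x : ℝ, S x = (1 / 2) * ∑ p ∈ (Finset.range ⌈x⌉₊).filter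
          (fun p : ℕ => Nat.Prime p ∧ ¬ (((p : ℕ) : ℤ) ∣ W.Δ) ∧ x ≤ (p : ℝ) ^ 2),
            (((p : ℝ) + 1 - N p) / p) ^ 2) →
  (iteratedDeriv (analyticOrderNatAt F 1) F 1 ≠ 0) ∧
  ((∀ lam : ℝ, 1 < lam → lam ≤ 2 → ∀ ε : ℝ, 0 < ε → ∃ X : ℝ, ∀ x : ℝ, X ≤ x →
      P (lam * x) ≤ (1 + ε) * P x) ↔
    Filter.Tendsto (fun x : ℝ => P x * Real.exp (S x) / Real.log x ^ (analyticOrderNatAt F 1))
      Filter.atTop (nhds (2 * Real.exp ((analyticOrderNatAt F 1 : ℕ) * Real.eulerMascheroniConstant) *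
        ((analyticOrderNatAt F 1).factorial : ℝ) / ‖iteratedDeriv (analyticOrderNatAt F 1) F 1‖))) ∧
  ((∃ C : ℝ, C ≠ 0 ∧ Asymptotics.IsEquivalent Filter.atTop P
      (fun x : ℝ => C * Real.log x ^ (analyticOrderNatAt F 1))) ↔
    ((∀ lam : ℝ, 1 < lam → lam ≤ 2 → ∀ ε : ℝ, 0 < ε → ∃ X : ℝ, ∀ x : ℝ, X ≤ x →
      P (lam * x) ≤ (1 + ε) * P x) ∧
    ∃ s : ℝ, Filter.Tendsto S Filter.atTop (nhds s))) := by
  intro W hΔ N hN F hFd hF P hP S hS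
  have h : P = Pool.Agent.Helper13.Bsd.PE W N := funext hP
  have h2 : S = Pool.Agent.Helper58.BSD.SS W N := funext hS
  rw [h, h2]
  refine ⟨?_, Pool.Agent.Helper58.BSD.slow_criterion W N hN hΔ F hFd hF⟩
  intro h0
  have h3 := Pool.Agent.Helper58.BSD.kon_pos W N hN hΔ F hFd hF
  unfold Pool.Agent.Helper58.BSD.kon at h3
  rw [h0, norm_zero, div_zero] at h3
  exact lt_irrefl _ h3

end Pool.Agent.Results.MP_ad1693_nt.SlowVariation
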